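import Pool.Agent.Helper62.MU.St

set_option autoImplicit false

open MeasureTheory Metric Set Filter Topology Polynomial
open scoped RealInnerProductSpace ContDiff

namespace Pool.Agent.Helper28.MU

open Pool.Agent.Helper62.MU
open Pool.Agent.Helper62.Mink

theorem sg_pos (x : ℝ) : 0 < sg x := by
  unfold sg
  exact Real.sqrt_pos.mpr (by positivity)

theorem sg_sq (x : ℝ) : sg x ^ 2 = 1 + x ^ 2 := by
  unfold sg
  exact Real.sq_sqrt (by positivity)

theorem sg_cont : Continuous sg := by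
  unfold sg
  fun_prop

theorem sg_ge_one (x : ℝ) : 1 ≤ sg x := by
  have h := sg_sq x
  have h0 := sg_pos x
  nlinarith [sq_nonneg x]

theorem tau_mem {y : ℝ} (hy : 0 ≤ y) : y / sg y ∈ Icc (0 : ℝ) 1 := by
  have h0 := sg_pos y
  refine ⟨by positivity, ?_⟩
  rw [div_le_one h0]
  have h := sg_sq y
  nlinarith

theorem tau_mono {x y : ℝ} (hx : 0 ≤ x) (hxy : x ≤ y) : x / sg x ≤ y / sg y := by
  have h0 := sg_pos x
  have h1 := sg_pos y
  rw [div_le_div_iff₀ h0 h1]
  have hsx := sg_sq x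
  have hsy := sg_sq y
  have hy : 0 ≤ y := hx.trans hxy
  apply le_of_sq_le_sq _ (by positivity)
  · rw [mul_pow, mul_pow, hsx, hsy]
    nlinarith [mul_self_le_mul_self hx hxy]

theorem anti_p {p : ℝ[X]} (hp : EvA p) {s t : ℝ} (hs : s ∈ Icc (0 : ℝ) 1) (ht : t ∈ Icc (0 : ℝ) 1)
    (hst : s ≤ t) : p.eval t ≤ p.eval s := by
  have h : AntitoneOn (fun x => p.eval x) (Icc (0 : ℝ) 1) := by
    apply antitoneOn_of_deriv_nonpos (convex_Icc 0 1)
    · exact p.continuous.continuousOn
    · exact p.differentiable.differentiableOn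
    · intro x hx
      rw [interior_Icc] at hx
      rw [Polynomial.deriv]
      exact hp.2 x ⟨hx.1.le, hx.2.le⟩
  exact h hs ht hst

theorem integrable_f (m : ℕ) (hm : 1 ≤ m) (p : ℝ[X]) :
    IntegrableOn (fun y : ℝ => y ^ 2 * p.eval (y / sg y) / sg y ^ (m + 3)) (Ioi 0) := by
  obtain ⟨C, hC⟩ : ∃ C : ℝ, ∀ t ∈ Icc (0 : ℝ) 1, |p.eval t| ≤ C := by
    obtain ⟨C, hC⟩ := isCompact_Icc.exists_bound_of_continuousOn (s := Icc (0 : ℝ) 1)
      (f := fun t => p.eval t) p.continuous.continuousOn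
    exact ⟨C, fun t ht => by simpa using hC t ht⟩
  have hint : IntegrableOn (fun y : ℝ => C * (1 + y ^ 2)⁻¹) (Ioi 0) :=
    (integrable_inv_one_add_sq.const_mul C).integrableOn
  refine Integrable.mono' hint ?_ ?_
  · apply Continuous.aestronglyMeasurable
    have h1 : Continuous fun y : ℝ => y / sg y :=
      continuous_id.div sg_cont (fun y => (sg_pos y).ne')
    exact ((continuous_pow 2).mul (p.continuous.comp h1)).div (sg_cont.pow _)
      (fun y => pow_ne_zero _ (sg_pos y).ne')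
  · refine (ae_restrict_mem measurableSet_Ioi).mono fun y hy => ?_
    have hy' : (0 : ℝ) < y := hy
    have h0 := sg_pos y
    have hb := hC _ (tau_mem hy'.le)
    have hC0 : 0 ≤ C := (abs_nonneg _).trans hb
    rw [Real.norm_eq_abs, abs_div, abs_mul, abs_of_nonneg (by positivity : (0 : ℝ) ≤ y ^ 2),
      abs_of_pos (by positivity : (0 : ℝ) < sg y ^ (m + 3)), div_le_iff₀ (by positivity)]
    have h2 := sg_sq y
    have h3 : sg y ^ 4 ≤ sg y ^ (m + 3) := pow_le_pow_right₀ (sg_ge_one y) (by omega)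
    have h4 : (1 + y ^ 2)⁻¹ * sg y ^ 4 = 1 + y ^ 2 := by
      rw [show sg y ^ 4 = (sg y ^ 2) ^ 2 by ring, h2]
      field_simp
    have h5 : y ^ 2 * |p.eval (y / sg y)| ≤ (1 + y ^ 2) * C :=
      mul_le_mul (by linarith) hb (abs_nonneg _) (by positivity)
    calc y ^ 2 * |p.eval (y / sg y)| ≤ (1 + y ^ 2) * C := h5
      _ = C * (1 + y ^ 2)⁻¹ * sg y ^ 4 := by rw [mul_assoc, h4]; ring
      _ ≤ C * (1 + y ^ 2)⁻¹ * sg y ^ (m + 3) :=
        mul_le_mul_of_nonneg_left h3 (by positivity)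

theorem integrable_i (m : ℕ) (hm : 1 ≤ m) :
    IntegrableOn (fun y : ℝ => y ^ 2 / sg y ^ (m + 3)) (Ioi 0) := by
  have h := integrable_f m hm 1
  simpa using h

/-- GP: `γ ≥ 0`. -/
theorem hGP (hPSI : StPSI) (hTU : StTU) : StGP := by
  intro m p hm hp hN x hx
  obtain ⟨hTUx, -, -⟩ := hTU m p hm hp hN
  obtain ⟨hT0, hUT⟩ := hTUx x hx
  have hm0 : (0 : ℝ) < m := by exact_mod_cast hm
  have hs := sg_pos x
  have hxi : 0 ≤ xi m x := by unfold xi; positivity
  unfold gam
  rcases le_or_gt 0 (p.eval (x / sg x)) with hp0 | hp0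
  · have hg : 0 ≤ gg p x := by unfold gg; positivity
    have hU : 0 ≤ Uu m p x := hT0.trans hUT
    positivity
  · set q : ℝ := -p.eval (x / sg x) with hq
    have hq0 : 0 < q := by linarith
    have hint := integrable_f m hm p
    have hii := integrable_i m hm
    have hsplit : Th m p x + ∫ y in Ioi x, y ^ 2 * p.eval (y / sg y) / sg y ^ (m + 3) = 0 := by
      have h1 : Th m p x = ∫ y in Ioc 0 x, y ^ 2 * p.eval (y / sg y) / sg y ^ (m + 3) := by
        unfold Th
        exact intervalIntegral.integral_of_le hx.le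
      have h2 := setIntegral_union (Ioc_disjoint_Ioi (le_refl x)) measurableSet_Ioi
        (hint.mono_set (fun y (hy : y ∈ Ioc (0 : ℝ) x) => hy.1))
        (hint.mono_set (Ioi_subset_Ioi hx.le))
      rw [Ioc_union_Ioi_eq_Ioi hx.le] at h2
      rw [h1, ← h2]
      exact hN
    have hge : q * (∫ y in Ioi x, y ^ 2 / sg y ^ (m + 3)) ≤ Th m p x := by
      have h2 : (∫ y in Ioi x, y ^ 2 * p.eval (y / sg y) / sg y ^ (m + 3)) ≤
          ∫ y in Ioi x, (-q) * (y ^ 2 / sg y ^ (m + 3)) := by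
        apply setIntegral_mono_on (hint.mono_set (Ioi_subset_Ioi hx.le))
          ((hii.mono_set (Ioi_subset_Ioi hx.le)).const_mul (-q)) measurableSet_Ioi
        intro y hy
        have hy' : x < y := hy
        have hy0 : 0 < y := hx.trans hy'
        have h3 : p.eval (y / sg y) ≤ -q := by
          rw [hq, neg_neg]
          exact anti_p hp (tau_mem hx.le) (tau_mem hy0.le) (tau_mono hx.le hy'.le)
        have h4 := sg_pos y
        rw [mul_div_right_comm, mul_comm (-q)]
        exact mul_le_mul_of_nonneg_left h3 (by positivity)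
      rw [integral_const_mul] at h2
      linarith
    set I : ℝ := ∫ y in Ioi x, y ^ 2 / sg y ^ (m + 3) with hI
    have hpsi := hPSI m x hm hx
    rw [← hI, div_le_iff₀ (by positivity)] at hpsi
    have hgg : xi m x * gg p x = -(q * ((1 + ((m : ℝ) + 2) / 2 * x ^ 2) / sg x ^ (m + 1))) := by
      unfold xi gg
      rw [hq]
      have h10 : sg x ≠ 0 := hs.ne'
      rw [show sg x ^ (m + 2) = sg x ^ (m + 1) * sg x by ring]
      generalize p.eval (x / sg x) = e
      field_simp
    have hkey : (1 + ((m : ℝ) + 2) / 2 * x ^ 2) / sg x ^ (m + 1) ≤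
        I * (m / (2 * x) + ((m : ℝ) + 2) * m / 2 * x) := by
      rw [div_le_iff₀ (by positivity)]
      have h5 : I * (m / (2 * x) + ((m : ℝ) + 2) * m / 2 * x) * sg x ^ (m + 1) =
          (I * (m * (1 + ((m : ℝ) + 2) * x ^ 2) * sg x ^ (m + 1))) / (2 * x) := by
        field_simp
      rw [h5, le_div_iff₀ (by positivity)]
      linarith
    have h6 : q * ((1 + ((m : ℝ) + 2) / 2 * x ^ 2) / sg x ^ (m + 1)) ≤
        q * (I * (m / (2 * x) + ((m : ℝ) + 2) * m / 2 * x)) :=
      mul_le_mul_of_nonneg_left hkey hq0.le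
    have h7 : (m : ℝ) / 2 * (q * I / x) ≤ (m : ℝ) / 2 * (Uu m p x / x) := by
      have : q * I / x ≤ Uu m p x / x := div_le_div_of_nonneg_right (hge.trans hUT) hx.le
      exact mul_le_mul_of_nonneg_left this (by positivity)
    have h8 : ((m : ℝ) + 2) * m / 2 * (x * (q * I)) ≤ ((m : ℝ) + 2) * m / 2 * (x * Th m p x) := by
      have : x * (q * I) ≤ x * Th m p x := mul_le_mul_of_nonneg_left hge hx.le
      exact mul_le_mul_of_nonneg_left this (by positivity)
    have h9 : q * (I * (m / (2 * x) + ((m : ℝ) + 2) * m / 2 * x)) =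
        (m : ℝ) / 2 * (q * I / x) + ((m : ℝ) + 2) * m / 2 * (x * (q * I)) := by
      field_simp
    rw [hgg]
    linarith

end Pool.Agent.Helper28.MU
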